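import Pool.Agent.H561R2.CF.Tree

/-!
# Crossing edges when no subtree is added in one step
-/

namespace Pool.Agent.H561R2.RK

open Pool.Agent.H561R2.CF

/-- Embeddings of the complete ternary tree of height `H` as a subtree. -/
inductive Emb (H : ℕ) : (h : ℕ) → (Nd H → Nd h) → Prop
  | refl : Emb H H id
  | sub {h : ℕ} (i : Fin 3) {e : Nd H → Nd h} : Emb H h e → Emb H (h + 1) fun x => CF.sub i (e x)

theorem Emb.inj {H h : ℕ} {e : Nd H → Nd h} (he : Emb H h e) : Function.Injective e := by
  induction he with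
  | refl => exact Function.injective_id
  | sub i _ ih => exact fun x y hxy => ih (sub_inj.1 hxy).2

theorem Emb.adj {H h : ℕ} {e : Nd H → Nd h} (he : Emb H h e) {x y : Nd H} (hxy : Adj H x y) :
    Adj h (e x) (e y) := by
  induction he with
  | refl => exact hxy
  | sub i _ ih => exact ih.sub i

/-- A process which adds no complete subtree of height `H` in one step. -/
structure Proc (H : ℕ) {h : ℕ} (U : ℕ → Nd h → Prop) : Prop where
  zero : ∀ x, ¬U 0 x
  full : ∃ N, ∀ x, U N x
  mono : ∀ t x, U t x → U (t + 1) x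
  step : ∀ t e, Emb H h e → ¬∀ x, ¬U t (e x) ∧ U (t + 1) (e x)

theorem Proc.mono' {H h : ℕ} {U : ℕ → Nd h → Prop} (hU : Proc H U) {s t : ℕ} (hst : s ≤ t)
    {x : Nd h} (hx : U s x) : U t x := by
  induction hst with
  | refl => exact hx
  | step _ ih => exact hU.mono _ _ ih

theorem Proc.sub {H h : ℕ} {U : ℕ → Nd (h + 1) → Prop} (hU : Proc H U) (i : Fin 3) :
    Proc H fun t x => U t (CF.sub i x) where
  zero x := hU.zero _
  full := by
    obtain ⟨N, hN⟩ := hU.full
    exact ⟨N, fun x => hN _⟩
  mono t x := hU.mono t _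
  step t e he := hU.step t _ (he.sub i)

theorem Proc.exists_one {H : ℕ} {U : ℕ → Nd H → Prop}
    (hU : Proc H U) : ∃ (t : ℕ) (e : Nd H × Nd H), Adj H e.1 e.2 ∧ U t e.1 ∧ ¬U t e.2 := by
  classical
  have hex : ∃ t, ∃ x, U t x := by
    obtain ⟨N, hN⟩ := hU.full
    exact ⟨N, rt H, hN _⟩
  obtain ⟨x, hx⟩ := Nat.find_spec hex
  have h0 : Nat.find hex ≠ 0 := by
    intro h0
    rw [h0] at hx
    exact hU.zero x hx
  obtain ⟨s, hs⟩ := Nat.exists_eq_succ_of_ne_zero h0
  have hprev : ∀ y, ¬U s y := by
    intro y hy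
    exact Nat.find_min hex (m := s) (by omega) ⟨y, hy⟩
  rw [hs] at hx
  obtain ⟨y, hy⟩ : ∃ y, ¬U (s + 1) y := by
    by_contra hcon
    push Not at hcon
    exact hU.step s id .refl fun x => ⟨hprev x, hcon x⟩
  obtain ⟨u, v, huv, hu, hv⟩ := exists_edge H (U (s + 1)) x y hx hy
  exact ⟨s + 1, (u, v), huv, hu, hv⟩

theorem map_crossing {H h : ℕ} {e : Nd H → Nd h} (he : Emb H h e) {P : Nd h → Prop}
    {L : List (Nd H × Nd H)} (hL : Crossing (fun x => P (e x)) L) :
    Crossing P (L.map fun p => (e p.1, e p.2)) := by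
  refine ⟨?_, ?_, ?_⟩
  · intro q hq
    obtain ⟨p, hp, rfl⟩ := List.mem_map.1 hq
    obtain ⟨q1, q2, q3⟩ := hL.1 p hp
    exact ⟨he.adj q1, q2, q3⟩
  · have := hL.2.1
    have h3 : (L.map fun p => (e p.1, e p.2)).map Prod.fst = (L.map Prod.fst).map e := by
      rw [List.map_map, List.map_map]
      rfl
    rw [h3]
    exact this.map he.inj
  · have := hL.2.2
    have h3 : (L.map fun p => (e p.1, e p.2)).map Prod.snd = (L.map Prod.snd).map e := by
      rw [List.map_map, List.map_map]
      rfl
    rw [h3]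
    exact this.map he.inj

/-- **The tree lemma.** -/
theorem Proc.exists_crossing {H : ℕ} : ∀ h, H ≤ h →
    ∀ (U : ℕ → Nd h → Prop), Proc H U →
    ∃ (t : ℕ) (l : List (Nd h × Nd h)), l.length + H = h + 1 ∧ Crossing (U t) l := by
  intro h hh
  induction h, hh using Nat.le_induction with
  | base =>
    intro U hU
    obtain ⟨t, e, h1, h2, h3⟩ := hU.exists_one
    refine ⟨t, [e], by rw [List.length_singleton, add_comm], ?_, by simp, by simp⟩
    intro e' he
    rw [List.mem_singleton] at he
    subst he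
    exact ⟨h1, h2, h3⟩
  | succ h hh ih =>
    intro U hU
    choose t l hl hc using fun i => ih _ (hU.sub i)
    obtain ⟨i, j, k, hik, hjk, h1, h2⟩ := sort3 t
    obtain ⟨a, ha⟩ : ∃ a : Nd h, U (t k) (CF.sub i a) := by
      obtain ⟨e, he⟩ := List.exists_mem_of_length_pos (l := l i) (by have := hl i; omega)
      exact ⟨e.1, hU.mono' h1 ((hc i).1 e he).2.1⟩
    obtain ⟨b, hb⟩ : ∃ b : Nd h, ¬U (t k) (CF.sub j b) := by
      obtain ⟨e, he⟩ := List.exists_mem_of_length_pos (l := l j) (by have := hl j; omega)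
      exact ⟨e.2, fun hcon => ((hc j).1 e he).2.2 (hU.mono' h2 hcon)⟩
    obtain ⟨x, y, hxy, hx, hy, hxn, hyn⟩ := exists_edge_avoid (U (t k)) hik hjk ha hb
    refine ⟨t k, (x, y) :: (l k).map (fun e => (CF.sub k e.1, CF.sub k e.2)), ?_, ?_, ?_, ?_⟩
    · have := hl k
      rw [List.length_cons, List.length_map]
      omega
    · intro e he
      rw [List.mem_cons] at he
      rcases he with rfl | he
      · exact ⟨hxy, hx, hy⟩
      · rw [List.mem_map] at he
        obtain ⟨e', he', rfl⟩ := he
        obtain ⟨q1, q2, q3⟩ := (hc k).1 e' he'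
        exact ⟨q1.sub k, q2, q3⟩
    · rw [List.map_cons, List.map_map, List.nodup_cons]
      constructor
      · intro hmem
        rw [List.mem_map] at hmem
        obtain ⟨e', -, he'⟩ := hmem
        exact hxn _ he'.symm
      · have := (hc k).2.1
        have h3 : (l k).map (Prod.fst ∘ fun e => (CF.sub k e.1, CF.sub k e.2)) =
            ((l k).map Prod.fst).map (CF.sub k) := by
          rw [List.map_map]
          rfl
        rw [h3]
        exact this.map fun u v huv => (sub_inj.1 huv).2
    · rw [List.map_cons, List.map_map, List.nodup_cons]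
      constructor
      · intro hmem
        rw [List.mem_map] at hmem
        obtain ⟨e', -, he'⟩ := hmem
        exact hyn _ he'.symm
      · have := (hc k).2.2
        have h3 : (l k).map (Prod.snd ∘ fun e => (CF.sub k e.1, CF.sub k e.2)) =
            ((l k).map Prod.snd).map (CF.sub k) := by
          rw [List.map_map]
          rfl
        rw [h3]
        exact this.map fun u v huv => (sub_inj.1 huv).2

end Pool.Agent.H561R2.RK
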