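import Pool.Agent.H561R2.RK.PT
import Pool.Agent.H561R2.RK.Tree2
import Pool.Agent.H561R2.CF.Mass

/-!
# Cuts of proof trees of small rank, and the lower bound
-/

namespace Pool.Agent.H561R2.RK

open Pool.Agent.H561R2.RO Pool.Agent.H561R2.CF

variable {n S : ℕ} {Γ : Type} {C : Circ (Fin n) Γ S} {a : Fin n → Γ}

/-- One level of the recursion. -/
theorem level {r : Fin S → ℕ} (hr : ∀ g, RankOK r g (C.gate g)) {b : ℕ} (hleaf : C.LeafLE b)
    (hb : 1 ≤ b) {d : PT n S} (h : d.Ok C a) {H s t : ℕ} (ht : t = H + s) (hH : b < 3 ^ H)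
    {κ : Nd t → Fin n} (hκ : Function.Injective κ) (hrd : ∀ u, κ u ∈ d.rd)
    (hno : ∀ e, Sub e d → r e.root < r d.root → ∀ f, Emb H t f → ¬∀ x, κ (f x) ∈ e.rd) :
    ∃ d', Sub d' d ∧ ∃ L : List (Nd t × Nd t), L.length = s + 1 ∧
      Crossing (fun u => κ u ∉ d'.rd) L := by
  classical
  obtain ⟨R, e1, ⟨N, e2⟩, e3, e4, e5⟩ := chain hr hleaf hb h
  have hP : Proc H fun i u => κ u ∉ R i := by
    refine ⟨fun x hx => hx (by rw [e1]; exact hrd x), ⟨N, fun x => by rw [e2]; simp⟩,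
      fun i x hx hx' => hx (e4 i hx'), fun i f hf hall => ?_⟩
    have hmem : ∀ x, κ (f x) ∈ R i \ R (i + 1) := by
      intro x
      obtain ⟨h1, h2⟩ := hall x
      exact Finset.mem_sdiff.2 ⟨not_not.1 h1, h2⟩
    rcases e5 i with h1 | ⟨e, he, he', h1⟩
    · have h2 : Fintype.card (Nd H) ≤ (R i \ R (i + 1)).card := by
        rw [← Finset.card_univ]
        exact Finset.card_le_card_of_injOn (fun x => κ (f x)) (fun x _ => hmem x)
          fun x _ y _ hxy => hf.inj (hκ hxy)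
      have h3 := card_nd H
      omega
    · exact hno e he he' f hf fun x => h1 (hmem x)
  obtain ⟨i, L, hL1, hL2⟩ := Proc.exists_crossing t (by omega) _ hP
  rcases e3 i with h1 | ⟨d', hd', h1⟩
  · exfalso
    obtain ⟨e, he⟩ := List.exists_mem_of_length_pos (l := L) (by omega)
    have := (hL2.1 e he).2.2
    rw [h1] at this
    exact this (by simp)
  · refine ⟨d', hd', L, by omega, ?_⟩
    rw [h1] at hL2
    exact hL2

theorem core {r : Fin S → ℕ} (hr : ∀ g, RankOK r g (C.gate g)) {b : ℕ} (hleaf : C.LeafLE b)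
    (hb : 1 ≤ b) {h₀ s : ℕ} (hb' : b < 3 ^ h₀) : ∀ (k : ℕ) {d : PT n S}, d.Ok C a →
    r d.root ≤ k → ∀ (t : ℕ), t = h₀ + (k + 1) * s → ∀ {κ : Nd t → Fin n},
    Function.Injective κ → (∀ u, κ u ∈ d.rd) →
    ∃ d', Sub d' d ∧ ∃ L : List (Nd t × Nd t), L.length = s + 1 ∧
      Crossing (fun u => κ u ∉ d'.rd) L := by
  intro k
  induction k with
  | zero =>
    intro d h hd t ht κ hκ hrd
    refine level hr hleaf hb h (H := h₀) (by omega) hb' hκ hrd ?_
    intro e he he'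
    omega
  | succ k ih =>
    intro d h hd t ht κ hκ hrd
    by_cases hex : ∃ e, Sub e d ∧ r e.root < r d.root ∧
      ∃ f, Emb (h₀ + (k + 1) * s) t f ∧ ∀ x, κ (f x) ∈ e.rd
    · obtain ⟨e, he, he', f, hf, hall⟩ := hex
      obtain ⟨d', hd', L, hL1, hL2⟩ := ih (he.ok h) (by omega) _ rfl (κ := fun x => κ (f x))
        (fun x y hxy => hf.inj (hκ hxy)) hall
      refine ⟨d', hd'.trans he, L.map fun p => (f p.1, f p.2), ?_, ?_⟩
      · rw [List.length_map]
        exact hL1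
      · exact map_crossing (P := fun u => κ u ∉ d'.rd) hf hL2
    · refine level hr hleaf hb h (H := h₀ + (k + 1) * s) (s := s) (by rw [ht]; ring) ?_ hκ hrd ?_
      · exact lt_of_lt_of_le hb' (Nat.pow_le_pow_right (by norm_num) (by omega))
      · intro e he he' f hf hall
        exact hex ⟨e, he, he', f, hf, hall⟩

/-- **The cut.** -/
theorem cut {out : Fin S} {k b h h₀ s : ℕ} (hC : RankLE C k) (hleaf : C.LeafLE b) (hb : 1 ≤ b)
    (hb' : b < 3 ^ h₀) (hh : h = h₀ + (k + 1) * s)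
    {Z : Type} (w : Z → Fin n → Γ) (key : Z → Nd h → Fin n) (h1 : ∀ z, C.Acc (w z) out)
    (h2 : ∀ z u, ∃ w', (∀ i, i ≠ key z u → w z i = w' i) ∧ ¬C.Acc w' out)
    (h3 : ∀ z z' (A : Set (Fin n)) [DecidablePred (· ∈ A)],
      C.Acc (fun i => if i ∈ A then w z i else w z' i) out →
      ∃ z'', (∀ u, key z u ∈ A → key z'' u = key z u) ∧ ∀ u, key z' u ∉ A → key z'' u = key z' u)
    (h4 : ∀ z, Function.Injective (key z)) :
    ∃ (c : Z → Fin S) (U : Z → Nd h → Prop),
      (∀ z, ∃ L : List (Nd h × Nd h), L.length = s + 1 ∧ Crossing (U z) L) ∧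
      ∀ z z', c z = c z' → (∀ u, U z u → U z' u) ∧ ∃ z'', (∀ u, U z u → key z'' u = key z u) ∧
        ∀ u, ¬U z' u → key z'' u = key z' u := by
  classical
  obtain ⟨r, hrk, hr⟩ := hC
  choose d hd1 hd2 using fun z => exists_pt (h1 z)
  have hall : ∀ z u, key z u ∈ (d z).rd := by
    intro z u
    by_contra hcon
    obtain ⟨w', e1, e2⟩ := h2 z u
    apply e2
    have := ((hd2 z).congr (a' := w') fun i hi => e1 i (by rintro rfl; exact hcon hi)).acc
    rw [hd1] at this
    exact this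
  choose d' hd' L hL1 hL2 using fun z => core hr hleaf hb hb' k (hd2 z) (hrk _) h hh (h4 z)
    (hall z)
  have hiff : ∀ z u, key z u ∉ (d' z).rd ↔ key z u ∉ C.scope (d' z).root := by
    intro z u
    rw [not_iff_not]
    exact ⟨fun hu => ((hd' z).ok (hd2 z)).rd_sub hu, fun hu => (hd' z).mem_rd (hd2 z) (hall z u) hu⟩
  refine ⟨fun z => (d' z).root, fun z u => key z u ∉ C.scope (d' z).root, fun z => ⟨L z, hL1 z, ?_⟩,
    ?_⟩
  · have := hL2 z
    have e : (fun u => key z u ∉ (d' z).rd) = fun u => key z u ∉ C.scope (d' z).root :=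
      funext fun u => propext (hiff z u)
    rw [e] at this
    exact this
  · intro z z' hzz
    have hzz : (d' z).root = (d' z').root := hzz
    have hAcc : C.Acc (fun i => if i ∈ {i | i ∉ C.scope (d' z).root} then w z i else w z' i)
        out := by
      rw [← hd1 z]
      refine (hd' z).splice (hd2 z) (fun v hv => if_pos hv) ?_
      have h5 : C.Acc (w z') (d' z).root := by
        rw [hzz]
        exact ((hd' z').ok (hd2 z')).acc
      refine h5.congr fun v hv => ?_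
      exact (if_neg (fun hv' : v ∉ C.scope (d' z).root => hv' hv)).symm
    obtain ⟨z'', e1, e2⟩ := h3 z z' _ hAcc
    refine ⟨fun u hu hu' => ?_, z'', e1, fun u hu => e2 u fun hu' => hu ?_⟩
    · have hu' : key z' u ∈ C.scope (d' z').root := hu'
      rw [← hzz] at hu'
      have e3 := e2 u fun hcon => hcon hu'
      have e4 := e1 u hu
      rw [← e3, e4] at hu'
      exact hu hu'
    · have hu' : key z' u ∉ C.scope (d' z).root := hu'
      rw [hzz] at hu'
      exact hu'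

open Finset in
open Classical in
/-- **The lower bound for decomposable circuits of small rank.** -/
theorem lower_bound {out : Fin S} {k b h h₀ s l : ℕ} (hC : RankLE C k) (hleaf : C.LeafLE b)
    (hb : 1 ≤ b) (hb' : b < 3 ^ h₀) (hh : h = h₀ + (k + 1) * s) (w : (Nd h → Vec l) → Fin n → Γ)
    (key : (Nd h → Vec l) → Nd h → Fin n)
    (h2 : ∀ z, Good z → ∀ u, ∃ w', (∀ i, i ≠ key z u → w z i = w' i) ∧ ¬C.Acc w' out)
    (h3 : ∀ z z', Good z → Good z' → ∀ (A : Set (Fin n)) [DecidablePred (· ∈ A)],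
      C.Acc (fun i => if i ∈ A then w z i else w z' i) out →
      ∃ z'', Good z'' ∧ (fun i => if i ∈ A then w z i else w z' i) = w z'' ∧
        (∀ u, key z u ∈ A → key z'' u = key z u) ∧ ∀ u, key z' u ∉ A → key z'' u = key z' u)
    (h4 : ∀ z, Good z → Function.Injective (key z))
    (h5 : ∀ z z' u, key z u = key z' u → z u = z' u) :
    (univ.filter fun z : Nd h → Vec l => Good z ∧ C.Acc (w z) out).card ^ 2 *
        2 ^ (l * (s + 1)) ≤
      S ^ 2 * (univ.filter fun z : Nd h → Vec l => Good z).card ^ 2 * 2 ^ (8 * (s + 1)) := by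
  obtain ⟨c, U, hU, hc⟩ := cut (out := out) (Z := {z : Nd h → Vec l // Good z ∧ C.Acc (w z) out})
    hC hleaf hb hb' hh (fun z => w z.1) (fun z => key z.1) (fun z => z.2.2)
    (fun z => h2 z.1 z.2.1) (by
      intro z z' A _ hA
      obtain ⟨z'', e1, e2, e3, e4⟩ := h3 z.1 z'.1 z.2.1 z'.2.1 A hA
      rw [e2] at hA
      exact ⟨⟨z'', e1, hA⟩, e3, e4⟩) (fun z => h4 z.1 z.2.1)
  set Z : Finset (Nd h → Vec l) := univ.filter fun z => Good z with hZ
  let K : Fin S → Finset (Nd h → Vec l) := fun v =>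
    univ.filter fun z => ∃ hz : Good z ∧ C.Acc (w z) out, c ⟨z, hz⟩ = v
  have hK : ∀ v, (K v).card ^ 2 * (2 ^ l) ^ (s + 1) ≤ Z.card ^ 2 * 256 ^ (s + 1) := by
    intro v
    rcases (K v).eq_empty_or_nonempty with he | ⟨z₀, hz₀⟩
    · rw [he]
      simp
    · rw [Finset.mem_filter] at hz₀
      obtain ⟨-, hg₀, hv₀⟩ := hz₀
      obtain ⟨L, hL1, hL2⟩ := hU ⟨z₀, hg₀⟩
      have key2 := class_card (K v) (fun z hz => by
        rw [Finset.mem_filter] at hz
        obtain ⟨-, hg, -⟩ := hz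
        exact hg.1) (U ⟨z₀, hg₀⟩) L hL2 (by
          intro e he z hz z' hz'
          rw [Finset.mem_filter] at hz hz'
          obtain ⟨-, hg, hv⟩ := hz
          obtain ⟨-, hg', hv'⟩ := hz'
          obtain ⟨hadj, hin, hout⟩ := hL2.1 e he
          obtain ⟨-, z'', a1, a2⟩ := hc ⟨z, hg⟩ ⟨z', hg'⟩ (hv.trans hv'.symm)
          have b1 : U ⟨z, hg⟩ e.1 := (hc ⟨z₀, hg₀⟩ ⟨z, hg⟩ (hv₀.trans hv.symm)).1 _ hin
          have b2 : ¬U ⟨z', hg'⟩ e.2 := fun hcon =>
            hout ((hc ⟨z', hg'⟩ ⟨z₀, hg₀⟩ (hv'.trans hv₀.symm)).1 _ hcon)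
          have c1 : z''.1 e.1 = z e.1 := h5 _ _ _ (a1 _ b1)
          have c2 : z''.1 e.2 = z' e.2 := h5 _ _ _ (a2 _ b2)
          rw [← c1, ← c2]
          rcases hadj with hadj | hadj
          · exact z''.2.1 _ _ hadj
          · rw [dotProduct_comm]
            exact z''.2.1 _ _ hadj)
      rw [hL1] at key2
      exact key2
  have hsum : (univ.filter fun z : Nd h → Vec l => Good z ∧ C.Acc (w z) out).card ≤
      ∑ v, (K v).card := by
    have hsub : (univ.filter fun z : Nd h → Vec l => Good z ∧ C.Acc (w z) out) ⊆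
        univ.biUnion K := by
      intro z hz
      rw [Finset.mem_filter] at hz
      rw [Finset.mem_biUnion]
      exact ⟨c ⟨z, hz.2⟩, Finset.mem_univ _, Finset.mem_filter.2 ⟨Finset.mem_univ _, hz.2, rfl⟩⟩
    exact (Finset.card_le_card hsub).trans Finset.card_biUnion_le
  obtain ⟨v, -, hv⟩ := Finset.exists_max_image univ (fun v => (K v).card)
    ⟨out, Finset.mem_univ _⟩
  have h6 : (univ.filter fun z : Nd h → Vec l => Good z ∧ C.Acc (w z) out).card ≤
      S * (K v).card := by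
    refine hsum.trans ((Finset.sum_le_card_nsmul _ _ _ fun v' _ => hv v'
      (Finset.mem_univ _)).trans (le_of_eq ?_))
    rw [smul_eq_mul, Finset.card_univ, Fintype.card_fin]
  have e1 : (2 ^ l) ^ (s + 1) = 2 ^ (l * (s + 1)) := (pow_mul 2 l _).symm
  have e2 : 256 ^ (s + 1) = 2 ^ (8 * (s + 1)) := by rw [pow_mul]; norm_num
  rw [← e1, ← e2]
  generalize (univ.filter fun z : Nd h → Vec l => Good z ∧ C.Acc (w z) out).card = a at h6 ⊢
  calc a ^ 2 * (2 ^ l) ^ (s + 1) ≤ (S * (K v).card) ^ 2 * (2 ^ l) ^ (s + 1) :=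
        Nat.mul_le_mul_right _ (Nat.pow_le_pow_left h6 2)
    _ = S ^ 2 * ((K v).card ^ 2 * (2 ^ l) ^ (s + 1)) := by ring
    _ ≤ S ^ 2 * (Z.card ^ 2 * 256 ^ (s + 1)) := Nat.mul_le_mul_left _ (hK v)
    _ = _ := by ring

end Pool.Agent.H561R2.RK
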