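import Pool.Agent.H561R2.RO.Defs

/-!
# The rank of a decomposable circuit
-/

namespace Pool.Agent.H561R2.RK

open Pool.Agent.H561R2.RO

/-- The conditions on the rank of gate `g`: the rank of a gate is at least the ranks of its inputs,
and every AND gate has an input of smaller rank. -/
def RankOK {Λ A : Type} {S : ℕ} (r : Fin S → ℕ) (g : Fin S) : Gate Λ A S → Prop
  | .leaf _ _ => True
  | .and i j => r i ≤ r g ∧ r j ≤ r g ∧ (r i < r g ∨ r j < r g)
  | .or i j => r i ≤ r g ∧ r j ≤ r g
  | .dec _ ch => ∀ c, r (ch c) ≤ r g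

/-- Circuits of rank at most `k`. Rank 0: no AND gates (nondeterministic read-once branching
programs). Rank at most `k + 1`: one input of each AND gate is a circuit of rank at most `k`. -/
def RankLE {Λ A : Type} {S : ℕ} (C : Circ Λ A S) (k : ℕ) : Prop :=
  ∃ r : Fin S → ℕ, (∀ g, r g ≤ k) ∧ ∀ g, RankOK r g (C.gate g)

end Pool.Agent.H561R2.RK
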