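import Pool.Agent.H561R2.RK.Core
import Pool.Agent.H561R2.CF.Main

/-!
# The language and the lower bound for circuits of small rank
-/

namespace Pool.Agent.H561R2.RK

open Pool.Agent.H561R2.RO Pool.Agent.H561R2.CF

open Finset in
open Classical in
theorem lower (l h k : ℕ) : ∃ F : Finset (Fin (tt l h k).length → Lt), F.Nonempty ∧
    (∀ w ∈ F, List.ofFn w ∈ mach.language) ∧
    ∀ (S b h₀ q s : ℕ) (C : Circ (Fin (tt l h k).length) Lt S) (out : Fin S), RankLE C q →
      C.LeafLE b → 1 ≤ b → b < 3 ^ h₀ → h = h₀ + (q + 1) * s →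
      (∀ w, C.Acc w out → List.ofFn w ∈ mach.language) →
      (F.filter fun w => C.Acc w out).card ^ 2 * 2 ^ (l * (s + 1)) ≤
        S ^ 2 * F.card ^ 2 * 2 ^ (8 * (s + 1)) := by
  have huniq : Uniq (tt l h k) := uniq_of_nodup _ (by
    rw [vars_tt]
    exact nodup_tmpl h id Function.injective_id)
  have hex : ∀ x : Nd h × Row l, ∃ i : Fin (tt l h k).length, (tt l h k).get i = Sum.inr x := by
    intro x
    have h1 : Sum.inr x ∈ tt l h k := by
      rw [← mem_vars, vars_tt, mem_vars_tmpl]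
      exact ⟨x.1, rfl⟩
    exact List.mem_iff_get.1 h1
  choose pos hpos using hex
  have hpos' : ∀ (i : Fin (tt l h k).length) (x), (tt l h k).get i = Sum.inr x → i = pos x := by
    intro i x hi
    have e1 : (tt l h k)[(i : ℕ)]? = some (Sum.inr x) := by
      rw [← hi]
      simp
    have e2 : (tt l h k)[(pos x : ℕ)]? = some (Sum.inr x) := by
      rw [← hpos x]
      simp
    exact Fin.ext (huniq _ _ _ e1 e2)
  let w : (Nd h × Row l → Bool) → Fin (tt l h k).length → Lt :=
    fun F i => eval F ((tt l h k).get i)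
  have hw : ∀ F, List.ofFn (w F) = pre l k ++ word h fun u r => F (u, r) := by
    intro F
    rw [← map_tt]
    have : w F = eval F ∘ (tt l h k).get := rfl
    rw [this, ← List.map_ofFn, List.ofFn_get]
  have hacc : ∀ F : Nd h × Row l → Bool, List.ofFn (w F) ∈ mach.language ↔
      ∃ z : Nd h → Vec l, Good z ∧ ∀ u r, F (u, r) = decide (r = (pv h 0 z u, z u)) := by
    intro F
    rw [hw, mem_language]
    constructor
    · rintro ⟨z, hz⟩
      obtain ⟨-, h1, h2⟩ := (rep_iff h _ _ _).1 hz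
      exact ⟨z, h1, h2⟩
    · rintro ⟨z, h1, h2⟩
      exact ⟨z, (rep_iff h _ _ _).2 ⟨zero_dotProduct _, h1, h2⟩⟩
  let Fz : (Nd h → Vec l) → Nd h × Row l → Bool := fun z x =>
    decide (x.2 = (pv h 0 z x.1, z x.1))
  let key : (Nd h → Vec l) → Nd h → Fin (tt l h k).length := fun z u =>
    pos (u, (pv h 0 z u, z u))
  have hinj : ∀ x y, pos x = pos y → x = y := by
    intro x y hxy
    have h1 := hpos x
    rw [hxy, hpos y] at h1
    exact (Sum.inr.inj h1).symm
  have hwinj : ∀ z z' : Nd h → Vec l, w (Fz z) = w (Fz z') → z = z' := by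
    intro z z' hzz
    funext u
    have h1 := congrFun hzz (pos (u, (pv h 0 z u, z u)))
    have h2 : eval (Fz z) ((tt l h k).get (pos (u, (pv h 0 z u, z u)))) =
      eval (Fz z') ((tt l h k).get (pos (u, (pv h 0 z u, z u)))) := h1
    rw [hpos] at h2
    have h3 : flag (Fz z (u, (pv h 0 z u, z u))) = flag (Fz z' (u, (pv h 0 z u, z u))) := h2
    have h4 : Fz z (u, (pv h 0 z u, z u)) = true := decide_eq_true rfl
    rw [h4] at h3
    have h5 : Fz z' (u, (pv h 0 z u, z u)) = true := by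
      cases hc : Fz z' (u, (pv h 0 z u, z u)) with
      | true => rfl
      | false =>
        rw [hc] at h3
        exact absurd h3 (by decide)
    exact (Prod.mk.inj (decide_eq_true_iff.1 h5)).2
  refine ⟨(univ.filter fun z : Nd h → Vec l => Good z).image fun z => w (Fz z), ?_, ?_, ?_⟩
  · refine ⟨w (Fz fun _ => 0), Finset.mem_image_of_mem _ ?_⟩
    rw [Finset.mem_filter]
    exact ⟨Finset.mem_univ _, fun p c _ => zero_dotProduct _⟩
  · intro v hv
    obtain ⟨z, hz, rfl⟩ := Finset.mem_image.1 hv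
    rw [Finset.mem_filter] at hz
    rw [hacc]
    exact ⟨z, hz.2, fun u r => rfl⟩
  intro S b h₀ q s C out hC hleaf hb1 hb hh hL
  have key2 := lower_bound (out := out) (l := l) hC hleaf hb1 hb hh (fun z => w (Fz z)) key
    ?_ ?_ ?_ ?_
  · have e1 : ((univ.filter fun z : Nd h → Vec l => Good z).image fun z => w (Fz z)).card =
        (univ.filter fun z : Nd h → Vec l => Good z).card :=
      Finset.card_image_of_injective _ fun z z' hzz => hwinj z z' hzz
    have e2 : (((univ.filter fun z : Nd h → Vec l => Good z).image fun z => w (Fz z)).filter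
        fun w => C.Acc w out).card =
        (univ.filter fun z : Nd h → Vec l => Good z ∧ C.Acc (w (Fz z)) out).card := by
      rw [Finset.filter_image, Finset.card_image_of_injective _ fun z z' hzz => hwinj z z' hzz,
        Finset.filter_filter]
    rw [e1, e2]
    exact key2
  · intro z hz u
    refine ⟨w fun x => if x = (u, (pv h 0 z u, z u)) then false else Fz z x, ?_, ?_⟩
    · intro i hi
      show eval _ _ = eval _ _
      cases hg : (tt l h k).get i with
      | inl c => rfl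
      | inr x =>
        show flag (Fz z x) = flag (if x = (u, (pv h 0 z u, z u)) then false else Fz z x)
        rw [if_neg]
        intro hx
        subst hx
        exact hi (hpos' _ _ hg)
    · intro hcon
      obtain ⟨z', -, h2⟩ := (hacc _).1 (hL _ hcon)
      have h3 := h2 u (pv h 0 z' u, z' u)
      simp only [decide_true] at h3
      split_ifs at h3 with h4
      rw [decide_eq_true_iff] at h3
      simp only at h3
      exact h4 (Prod.ext rfl h3)
  · intro z z' hz hz' A _ hAcc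
    have hmix : (fun i => if i ∈ A then w (Fz z) i else w (Fz z') i) =
        w fun x => if pos x ∈ A then Fz z x else Fz z' x := by
      funext i
      show (if i ∈ A then eval _ _ else eval _ _) = eval _ _
      cases hg : (tt l h k).get i with
      | inl c => split_ifs <;> rfl
      | inr x =>
        have hi := hpos' _ _ hg
        show (if i ∈ A then flag (Fz z x) else flag (Fz z' x)) =
          flag (if pos x ∈ A then Fz z x else Fz z' x)
        rw [← hi]
        split_ifs <;> rfl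
    rw [hmix] at hAcc ⊢
    obtain ⟨z'', hz'', h2⟩ := (hacc _).1 (hL _ hAcc)
    refine ⟨z'', hz'', ?_, fun u hu => ?_, fun u hu => ?_⟩
    · congr 1
      funext x
      exact h2 x.1 x.2
    · have h3 := h2 u (pv h 0 z u, z u)
      have hu' : pos (u, (pv h 0 z u, z u)) ∈ A := hu
      rw [if_pos hu'] at h3
      have h4 : Fz z (u, (pv h 0 z u, z u)) = true := decide_eq_true rfl
      rw [h4] at h3
      have h5 := decide_eq_true_iff.1 h3.symm
      show pos _ = pos _
      rw [h5]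
    · have h3 := h2 u (pv h 0 z' u, z' u)
      have hu' : pos (u, (pv h 0 z' u, z' u)) ∉ A := hu
      rw [if_neg hu'] at h3
      have h4 : Fz z' (u, (pv h 0 z' u, z' u)) = true := decide_eq_true rfl
      rw [h4] at h3
      have h5 := decide_eq_true_iff.1 h3.symm
      show pos _ = pos _
      rw [h5]
  · intro z hz u v huv
    exact (Prod.mk.inj (hinj _ _ huv)).1
  · intro z z' u huv
    exact (Prod.mk.inj (Prod.mk.inj (hinj _ _ huv)).2).2

open Classical in
theorem lower' {l h n : ℕ} (hl : 1 ≤ l)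
    (hn : l + 3 + 2 * 3 ^ h * (2 ^ l * 2 ^ l * (4 * l + 1) + 2) ≤ n) :
    ∃ F : Finset (Fin n → Lt), F.Nonempty ∧ (∀ w ∈ F, List.ofFn w ∈ mach.language) ∧
    ∀ (S b h₀ q s : ℕ) (C : Circ (Fin n) Lt S) (out : Fin S), RankLE C q →
      C.LeafLE b → 1 ≤ b → b < 3 ^ h₀ → h = h₀ + (q + 1) * s →
      (∀ w, C.Acc w out → List.ofFn w ∈ mach.language) →
      (F.filter fun w => C.Acc w out).card ^ 2 * 2 ^ (l * (s + 1)) ≤
        S ^ 2 * F.card ^ 2 * 2 ^ (8 * (s + 1)) := by
  obtain ⟨k, hk⟩ := exists_pad hl hn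
  subst hk
  exact lower l h k

open Classical in
/-- **The lower bound.** -/
theorem main {k n : ℕ} (hk : 1 ≤ k) (hn : 240 * k ≤ Nat.log 2 n) :
    ∃ F : Finset (Fin n → Lt), F.Nonempty ∧ (∀ w ∈ F, List.ofFn w ∈ mach.language) ∧
    ∀ (q S b : ℕ) (C : Circ (Fin n) Lt S) (out : Fin S), RankLE C q → C.LeafLE b →
      b ^ k ≤ n ^ (k - 1) → (∀ w, C.Acc w out → List.ofFn w ∈ mach.language) →
      2 ^ ((Nat.log 2 n) ^ 2 / (200 * k ^ 2 * (q + 1))) * (F.filter fun w => C.Acc w out).card ≤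
        S * F.card := by
  set N := Nat.log 2 n with hN
  have hn0 : n ≠ 0 := by
    rintro rfl
    rw [hN] at hn
    simp only [Nat.log_zero_right] at hn
    omega
  have hNn : 2 ^ N ≤ n := Nat.pow_log_le_self 2 hn0
  have hnN : n < 2 ^ (N + 1) := Nat.lt_pow_succ_log_self (by norm_num) n
  obtain ⟨l, hl⟩ : ∃ l, l = N / (8 * k) := ⟨_, rfl⟩
  have h8 : 8 * k * l ≤ N := by rw [hl]; exact Nat.mul_div_le _ _
  have h9 : N < 8 * k * (l + 1) := by
    rw [hl]
    exact Nat.lt_mul_div_succ _ (by omega)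
  have hl30 : 30 ≤ l := by
    rw [hl, Nat.le_div_iff_mul_le (by omega)]
    linarith
  have h4l : 4 * l ≤ N := by nlinarith
  obtain ⟨h, hh⟩ : ∃ h, h = Nat.log 3 (2 ^ (N - 4 * l)) := ⟨_, rfl⟩
  have h3h : 3 ^ h ≤ 2 ^ (N - 4 * l) := by
    rw [hh]
    exact Nat.pow_log_le_self 3 (by positivity)
  obtain ⟨F, hF1, hF2, hF3⟩ := lower' (l := l) (h := h) (n := n) (by omega)
    ((num2 hl30 h4l h3h).trans hNn)
  refine ⟨F, hF1, hF2, fun q S b C out hC hleaf hb hL => ?_⟩
  -- replace `b` by `max b 1`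
  obtain ⟨b', hb'1, hbb', hb'2⟩ : ∃ b', 1 ≤ b' ∧ b ≤ b' ∧ b' ^ k ≤ n ^ (k - 1) := by
    refine ⟨max b 1, le_max_right _ _, le_max_left _ _, ?_⟩
    rcases le_total b 1 with h1 | h1
    · rw [max_eq_right h1, one_pow]
      exact Nat.one_le_pow _ _ (by omega)
    · rw [max_eq_left h1]
      exact hb
  have hleaf' : C.LeafLE b' := fun g B φ hg => (hleaf g B φ hg).trans hbb'
  have h10 := num3 hk hn hl hnN hn0 hb'2 hh
  obtain ⟨s, hs⟩ : ∃ s, s = l / (q + 1) := ⟨_, rfl⟩
  have hs1 : (q + 1) * s ≤ l := by rw [hs]; exact Nat.mul_div_le _ _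
  have hs2 : l < (q + 1) * (s + 1) := by rw [hs]; exact Nat.lt_mul_div_succ _ (by omega)
  have key := hF3 S b' (h - (q + 1) * s) q s C out hC hleaf' hb'1 (by
    refine lt_of_lt_of_le (Nat.lt_pow_succ_log_self (by norm_num : 1 < 3) b') ?_
    exact Nat.pow_le_pow_right (by norm_num) (by omega)) (by omega) hL
  generalize (F.filter fun w => C.Acc w out).card = a at key ⊢
  generalize F.card = f at key ⊢
  obtain ⟨E, hE⟩ : ∃ E, E = N ^ 2 / (200 * k ^ 2 * (q + 1)) := ⟨_, rfl⟩
  rw [← hE]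
  have h11 : 2 * E ≤ (l - 8) * (s + 1) := by
    have e1 : 200 * k ^ 2 * (q + 1) * E ≤ N ^ 2 := by rw [hE]; exact Nat.mul_div_le _ _
    have e2 : N ^ 2 ≤ (8 * k * (l + 1)) ^ 2 := Nat.pow_le_pow_left h9.le 2
    have e3 : k ^ 2 * ((q + 1) * (200 * E)) ≤ k ^ 2 * (64 * (l + 1) ^ 2) := by
      calc k ^ 2 * ((q + 1) * (200 * E)) = 200 * k ^ 2 * (q + 1) * E := by ring
        _ ≤ _ := e1.trans e2
        _ = _ := by ring
    have e4 : (q + 1) * (200 * E) ≤ 64 * (l + 1) ^ 2 :=
      Nat.le_of_mul_le_mul_left e3 (by positivity)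
    obtain ⟨j, rfl⟩ : ∃ j, l = j + 30 := ⟨l - 30, by omega⟩
    have e6 : j + 30 - 8 = j + 22 := by omega
    rw [e6]
    have e7 : (q + 1) * (2 * E) ≤ (q + 1) * ((j + 22) * (s + 1)) := by
      have e8 : (j + 22) * (j + 30) ≤ (j + 22) * ((q + 1) * (s + 1)) :=
        Nat.mul_le_mul_left _ hs2.le
      have e9 : (q + 1) * ((j + 22) * (s + 1)) = (j + 22) * ((q + 1) * (s + 1)) := by ring
      rw [e9]
      refine le_trans ?_ e8
      have e10 : 100 * ((q + 1) * (2 * E)) = (q + 1) * (200 * E) := by ring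
      nlinarith
    exact Nat.le_of_mul_le_mul_left e7 (by omega)
  have h12 : (2 ^ E * a) ^ 2 ≤ (S * f) ^ 2 := by
    have e1 : l * (s + 1) = (l - 8) * (s + 1) + 8 * (s + 1) := by
      rw [← add_mul]
      congr 1
      omega
    rw [e1, pow_add] at key
    have e2 : (a ^ 2 * 2 ^ ((l - 8) * (s + 1))) * 2 ^ (8 * (s + 1)) ≤
        (S ^ 2 * f ^ 2) * 2 ^ (8 * (s + 1)) := by
      calc (a ^ 2 * 2 ^ ((l - 8) * (s + 1))) * 2 ^ (8 * (s + 1)) =
          a ^ 2 * (2 ^ ((l - 8) * (s + 1)) * 2 ^ (8 * (s + 1))) := by ring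
        _ ≤ _ := key
    have e3 := Nat.le_of_mul_le_mul_right e2 (by positivity)
    calc (2 ^ E * a) ^ 2 = a ^ 2 * 2 ^ (2 * E) := by rw [mul_pow, ← pow_mul]; ring
      _ ≤ a ^ 2 * 2 ^ ((l - 8) * (s + 1)) :=
          Nat.mul_le_mul_left _ (Nat.pow_le_pow_right (by norm_num) h11)
      _ ≤ S ^ 2 * f ^ 2 := e3
      _ = (S * f) ^ 2 := (mul_pow _ _ _).symm
  exact (Nat.pow_le_pow_iff_left (by norm_num)).1 h12

end Pool.Agent.H561R2.RK
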