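import Pool.Agent.H561R2.RO.Cut
import Pool.Agent.H561R2.RK.Defs

/-!
# Proof trees of decomposable circuits
-/

namespace Pool.Agent.H561R2.RK

open Pool.Agent.H561R2.RO

/-- Proof trees. -/
inductive PT (n S : ℕ) : Type
  | leaf (g : Fin S) (B : Finset (Fin n)) : PT n S
  | dec (g : Fin S) (v : Fin n) (d : PT n S) : PT n S
  | or (g : Fin S) (d : PT n S) : PT n S
  | and (g : Fin S) (d e : PT n S) : PT n S

variable {n S : ℕ} {Γ : Type}

/-- The gate at the root. -/
def PT.root : PT n S → Fin S
  | .leaf g _ => g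
  | .dec g _ _ => g
  | .or g _ => g
  | .and g _ _ => g

/-- The positions read. -/
def PT.rd : PT n S → Finset (Fin n)
  | .leaf _ B => B
  | .dec _ v d => insert v d.rd
  | .or _ d => d.rd
  | .and _ d e => d.rd ∪ e.rd

/-- Proof trees for the word `a`. -/
inductive PT.Ok (C : Circ (Fin n) Γ S) (a : Fin n → Γ) : PT n S → Prop
  | leaf {g : Fin S} {B : Finset (Fin n)} {φ : (Fin n → Γ) → Bool} :
      C.gate g = .leaf B φ → φ a = true → Ok C a (.leaf g B)
  | dec {g : Fin S} {v : Fin n} {ch : Γ → Fin S} {d : PT n S} :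
      C.gate g = .dec v ch → d.root = ch (a v) → Ok C a d → Ok C a (.dec g v d)
  | or {g i j : Fin S} {d : PT n S} :
      C.gate g = .or i j → d.root = i ∨ d.root = j → Ok C a d → Ok C a (.or g d)
  | and {g : Fin S} {d e : PT n S} :
      C.gate g = .and d.root e.root → Ok C a d → Ok C a e → Ok C a (.and g d e)

/-- `Sub d' d`: `d'` is a subtree of `d`. -/
inductive Sub : PT n S → PT n S → Prop
  | refl (d : PT n S) : Sub d d
  | dec {d' d : PT n S} (g : Fin S) (v : Fin n) : Sub d' d → Sub d' (.dec g v d)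
  | or {d' d : PT n S} (g : Fin S) : Sub d' d → Sub d' (.or g d)
  | left {d' d : PT n S} (g : Fin S) (e : PT n S) : Sub d' d → Sub d' (.and g d e)
  | right {d' e : PT n S} (g : Fin S) (d : PT n S) : Sub d' e → Sub d' (.and g d e)

variable {C : Circ (Fin n) Γ S} {a : Fin n → Γ}

theorem PT.Ok.acc {d : PT n S} (h : d.Ok C a) : C.Acc a d.root := by
  induction h with
  | leaf h1 h2 => exact .leaf h1 h2
  | @dec g v ch d h1 h2 _ ih =>
    rw [h2] at ih
    exact .dec h1 ih
  | @or g i j d h1 h2 _ ih =>
    rcases h2 with h2 | h2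
    · rw [h2] at ih
      exact .left h1 ih
    · rw [h2] at ih
      exact .right h1 ih
  | and h1 _ _ i1 i2 => exact .and h1 i1 i2

theorem exists_pt {g : Fin S} (h : C.Acc a g) : ∃ d : PT n S, d.root = g ∧ d.Ok C a := by
  induction h with
  | @leaf g B φ h1 h2 => exact ⟨.leaf g B, rfl, .leaf h1 h2⟩
  | @and g i j h1 _ _ i1 i2 =>
    obtain ⟨d, hd, hd'⟩ := i1
    obtain ⟨e, he, he'⟩ := i2
    subst hd he
    exact ⟨.and g d e, rfl, .and h1 hd' he'⟩
  | @left g i j h1 _ i1 =>
    obtain ⟨d, hd, hd'⟩ := i1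
    exact ⟨.or g d, rfl, .or h1 (Or.inl hd) hd'⟩
  | @right g i j h1 _ i1 =>
    obtain ⟨d, hd, hd'⟩ := i1
    exact ⟨.or g d, rfl, .or h1 (Or.inr hd) hd'⟩
  | @dec g v ch h1 _ i1 =>
    obtain ⟨d, hd, hd'⟩ := i1
    exact ⟨.dec g v d, rfl, .dec h1 hd hd'⟩

theorem PT.Ok.congr {a' : Fin n → Γ} {d : PT n S} (h : d.Ok C a) (haa : ∀ v ∈ d.rd, a v = a' v) :
    d.Ok C a' := by
  induction h with
  | leaf h1 h2 => exact .leaf h1 (by rw [← (Circ.ok_leaf h1).2 a a' haa]; exact h2)
  | @dec g v ch d h1 h2 _ ih =>
    refine .dec h1 ?_ (ih fun u hu => haa u (Finset.mem_insert_of_mem hu))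
    rw [← haa v (Finset.mem_insert_self _ _)]
    exact h2
  | or h1 h2 _ ih => exact .or h1 h2 (ih haa)
  | and h1 _ _ i1 i2 =>
    exact .and h1 (i1 fun v hv => haa v (Finset.mem_union_left _ hv))
      (i2 fun v hv => haa v (Finset.mem_union_right _ hv))

theorem PT.Ok.rd_sub {d : PT n S} (h : d.Ok C a) : d.rd ⊆ C.scope d.root := by
  induction h with
  | leaf h1 _ => exact (Circ.ok_leaf h1).1
  | @dec g v ch d h1 h2 _ ih =>
    obtain ⟨o1, o2⟩ := Circ.ok_dec h1
    refine Finset.insert_subset o1 (ih.trans ?_)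
    rw [h2]
    exact (o2 _).2.1
  | @or g i j d h1 h2 _ ih =>
    obtain ⟨-, -, o3, o4⟩ := Circ.ok_or h1
    refine ih.trans ?_
    rcases h2 with h2 | h2 <;> rw [h2]
    · exact o3
    · exact o4
  | and h1 _ _ i1 i2 =>
    obtain ⟨-, -, o3, o4, -⟩ := Circ.ok_and h1
    exact Finset.union_subset (i1.trans o3) (i2.trans o4)

theorem Sub.ok {d' d : PT n S} (hs : Sub d' d) (h : d.Ok C a) : d'.Ok C a := by
  induction hs with
  | refl => exact h
  | dec g v _ ih =>
    cases h with
    | dec h1 h2 h3 => exact ih h3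
  | or g _ ih =>
    cases h with
    | or h1 h2 h3 => exact ih h3
  | left g e _ ih =>
    cases h with
    | and h1 h2 h3 => exact ih h2
  | right g d _ ih =>
    cases h with
    | and h1 h2 h3 => exact ih h3

theorem Sub.trans {d₁ d₂ d₃ : PT n S} (h : Sub d₁ d₂) (h' : Sub d₂ d₃) : Sub d₁ d₃ := by
  induction h' with
  | refl => exact h
  | dec g v _ ih => exact .dec g v ih
  | or g _ ih => exact .or g ih
  | left g e _ ih => exact .left g e ih
  | right g d _ ih => exact .right g d ih

theorem Sub.scope {d' d : PT n S} (hs : Sub d' d) (h : d.Ok C a) :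
    C.scope d'.root ⊆ C.scope d.root := by
  induction hs with
  | refl => exact subset_rfl
  | dec g v _ ih =>
    cases h with
    | dec h1 h2 h3 =>
      refine (ih h3).trans ?_
      rw [h2]
      exact ((Circ.ok_dec h1).2 _).2.1
  | or g _ ih =>
    cases h with
    | or h1 h2 h3 =>
      obtain ⟨-, -, o3, o4⟩ := Circ.ok_or h1
      refine (ih h3).trans ?_
      rcases h2 with h2 | h2 <;> rw [h2]
      · exact o3
      · exact o4
  | left g e _ ih =>
    cases h with
    | and h1 h2 h3 => exact (ih h2).trans (Circ.ok_and h1).2.2.1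
  | right g d _ ih =>
    cases h with
    | and h1 h2 h3 => exact (ih h3).trans (Circ.ok_and h1).2.2.2.1

/-- Positions in the scope of a subtree are read in this subtree only. -/
theorem Sub.mem_rd {d' d : PT n S} (hs : Sub d' d) (h : d.Ok C a) {x : Fin n} (hx : x ∈ d.rd)
    (hx' : x ∈ C.scope d'.root) : x ∈ d'.rd := by
  induction hs with
  | refl => exact hx
  | dec g v hs ih =>
    cases h with
    | @dec _ _ ch _ h1 h2 h3 =>
      have hx : x ∈ insert _ _ := hx
      rw [Finset.mem_insert] at hx
      rcases hx with rfl | hx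
      · exfalso
        have h4 := hs.scope h3 hx'
        rw [h2] at h4
        exact ((Circ.ok_dec h1).2 _).2.2 h4
      · exact ih h3 hx
  | or g _ ih =>
    cases h with
    | or h1 h2 h3 => exact ih h3 hx
  | left g e hs ih =>
    cases h with
    | and h1 h2 h3 =>
      have hx : x ∈ _ ∪ _ := hx
      rw [Finset.mem_union] at hx
      rcases hx with hx | hx
      · exact ih h2 hx
      · exact absurd (h3.rd_sub hx)
          (Finset.disjoint_left.1 (Circ.ok_and h1).2.2.2.2 (hs.scope h2 hx'))
  | right g d hs ih =>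
    cases h with
    | and h1 h2 h3 =>
      have hx : x ∈ _ ∪ _ := hx
      rw [Finset.mem_union] at hx
      rcases hx with hx | hx
      · exact absurd (hs.scope h3 hx')
          (Finset.disjoint_left.1 (Circ.ok_and h1).2.2.2.2 (h2.rd_sub hx))
      · exact ih h3 hx

/-- **Splicing.** -/
theorem Sub.splice {d' d : PT n S} (hs : Sub d' d) (h : d.Ok C a) {w : Fin n → Γ}
    (hout : ∀ v, v ∉ C.scope d'.root → w v = a v) (hin : C.Acc w d'.root) : C.Acc w d.root := by
  induction hs with
  | refl => exact hin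
  | dec g v hs ih =>
    cases h with
    | @dec _ _ ch _ h1 h2 h3 =>
      have h4 := ih h3
      rw [h2] at h4
      have h5 : w v = a v := by
        refine hout v fun hv => ?_
        have h6 := hs.scope h3 hv
        rw [h2] at h6
        exact ((Circ.ok_dec h1).2 _).2.2 h6
      rw [← h5] at h4
      exact .dec h1 h4
  | or g _ ih =>
    cases h with
    | or h1 h2 h3 =>
      have h4 := ih h3
      rcases h2 with h2 | h2
      · rw [h2] at h4
        exact .left h1 h4
      · rw [h2] at h4
        exact .right h1 h4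
  | left g e hs ih =>
    cases h with
    | and h1 h2 h3 =>
      refine .and h1 (ih h2) (h3.acc.congr fun v hv => (hout v fun hv' => ?_).symm)
      exact Finset.disjoint_left.1 (Circ.ok_and h1).2.2.2.2 (hs.scope h2 hv') hv
  | right g d hs ih =>
    cases h with
    | and h1 h2 h3 =>
      refine .and h1 (h2.acc.congr fun v hv => (hout v fun hv' => ?_).symm) (ih h3)
      exact Finset.disjoint_left.1 (Circ.ok_and h1).2.2.2.2 hv (hs.scope h3 hv')

/-- The spine of a proof tree. -/
theorem chain {r : Fin S → ℕ} (hr : ∀ g, RankOK r g (C.gate g)) {b : ℕ} (hleaf : C.LeafLE b)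
    (hb : 1 ≤ b) {d : PT n S} (h : d.Ok C a) :
    ∃ R : ℕ → Finset (Fin n), R 0 = d.rd ∧ (∃ N, R N = ∅) ∧
      (∀ t, R t = ∅ ∨ ∃ d', Sub d' d ∧ R t = d'.rd) ∧ (∀ t, R (t + 1) ⊆ R t) ∧
      ∀ t, (R t \ R (t + 1)).card ≤ b ∨
        ∃ e, Sub e d ∧ r e.root < r d.root ∧ R t \ R (t + 1) ⊆ e.rd := by
  induction h with
  | @leaf g B φ h1 h2 =>
    refine ⟨fun t => if t = 0 then B else ∅, rfl, ⟨1, rfl⟩, fun t => ?_, fun t => ?_,
      fun t => Or.inl ?_⟩
    · cases t with
      | zero => exact Or.inr ⟨_, .refl _, rfl⟩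
      | succ t => exact Or.inl rfl
    · exact Finset.empty_subset _
    · cases t with
      | zero =>
        refine (Finset.card_le_card Finset.sdiff_subset).trans ?_
        exact hleaf _ _ _ h1
      | succ t =>
        refine (Finset.card_le_card Finset.sdiff_subset).trans ?_
        simp
  | @dec g v ch d h1 h2 h3 ih =>
    obtain ⟨R, e1, ⟨N, e2⟩, e3, e4, e5⟩ := ih
    have hrk : r d.root ≤ r g := by
      have := hr g
      rw [h1] at this
      rw [h2]
      exact this _
    refine ⟨fun t => if t = 0 then insert v d.rd else R (t - 1), rfl, ⟨N + 1, ?_⟩, fun t => ?_,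
      fun t => ?_, fun t => ?_⟩
    · exact e2
    · cases t with
      | zero => exact Or.inr ⟨_, .refl _, rfl⟩
      | succ t =>
        rcases e3 t with h | ⟨d', hd', h⟩
        · exact Or.inl h
        · exact Or.inr ⟨d', .dec g v hd', h⟩
    · cases t with
      | zero =>
        show R 0 ⊆ insert v d.rd
        rw [e1]
        exact Finset.subset_insert _ _
      | succ t => exact e4 t
    · cases t with
      | zero =>
        left
        show (insert v d.rd \ R 0).card ≤ b
        rw [e1]
        refine le_trans (Finset.card_le_card (t := {v}) fun x hx => ?_) ?_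
        · rw [Finset.mem_sdiff, Finset.mem_insert] at hx
          rw [Finset.mem_singleton]
          tauto
        · rw [Finset.card_singleton]
          exact hb
      | succ t =>
        rcases e5 t with h | ⟨e, he, he', h⟩
        · exact Or.inl h
        · exact Or.inr ⟨e, .dec g v he, lt_of_lt_of_le he' hrk, h⟩
  | @or g i j d h1 h2 h3 ih =>
    obtain ⟨R, e1, ⟨N, e2⟩, e3, e4, e5⟩ := ih
    have hrk : r d.root ≤ r g := by
      have := hr g
      rw [h1] at this
      rcases h2 with h2 | h2 <;> rw [h2]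
      · exact this.1
      · exact this.2
    refine ⟨R, e1, ⟨N, e2⟩, fun t => ?_, e4, fun t => ?_⟩
    · rcases e3 t with h | ⟨d', hd', h⟩
      · exact Or.inl h
      · exact Or.inr ⟨d', .or g hd', h⟩
    · rcases e5 t with h | ⟨e, he, he', h⟩
      · exact Or.inl h
      · exact Or.inr ⟨e, .or g he, lt_of_lt_of_le he' hrk, h⟩
  | @and g d e h1 h2 h3 i1 i2 =>
    have hrk := hr g
    rw [h1] at hrk
    obtain ⟨r1, r2, r3⟩ := hrk
    rcases r3 with r3 | r3
    · obtain ⟨R, e1, ⟨N, e2⟩, e3, e4, e5⟩ := i2
      refine ⟨fun t => if t = 0 then d.rd ∪ e.rd else R (t - 1), rfl, ⟨N + 1, e2⟩, fun t => ?_,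
        fun t => ?_, fun t => ?_⟩
      · cases t with
        | zero => exact Or.inr ⟨_, .refl _, rfl⟩
        | succ t =>
          rcases e3 t with h | ⟨d', hd', h⟩
          · exact Or.inl h
          · exact Or.inr ⟨d', .right g d hd', h⟩
      · cases t with
        | zero =>
          show R 0 ⊆ d.rd ∪ e.rd
          rw [e1]
          exact Finset.subset_union_right
        | succ t => exact e4 t
      · cases t with
        | zero =>
          refine Or.inr ⟨d, .left g e (.refl d), r3, ?_⟩
          show (d.rd ∪ e.rd) \ R 0 ⊆ d.rd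
          rw [e1]
          intro x hx
          rw [Finset.mem_sdiff, Finset.mem_union] at hx
          tauto
        | succ t =>
          rcases e5 t with h | ⟨e', he, he', h⟩
          · exact Or.inl h
          · exact Or.inr ⟨e', .right g d he, lt_of_lt_of_le he' r2, h⟩
    · obtain ⟨R, e1, ⟨N, e2⟩, e3, e4, e5⟩ := i1
      refine ⟨fun t => if t = 0 then d.rd ∪ e.rd else R (t - 1), rfl, ⟨N + 1, e2⟩, fun t => ?_,
        fun t => ?_, fun t => ?_⟩
      · cases t with
        | zero => exact Or.inr ⟨_, .refl _, rfl⟩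
        | succ t =>
          rcases e3 t with h | ⟨d', hd', h⟩
          · exact Or.inl h
          · exact Or.inr ⟨d', .left g e hd', h⟩
      · cases t with
        | zero =>
          show R 0 ⊆ d.rd ∪ e.rd
          rw [e1]
          exact Finset.subset_union_left
        | succ t => exact e4 t
      · cases t with
        | zero =>
          refine Or.inr ⟨e, .right g d (.refl e), r3, ?_⟩
          show (d.rd ∪ e.rd) \ R 0 ⊆ e.rd
          rw [e1]
          intro x hx
          rw [Finset.mem_sdiff, Finset.mem_union] at hx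
          tauto
        | succ t =>
          rcases e5 t with h | ⟨e', he, he', h⟩
          · exact Or.inl h
          · exact Or.inr ⟨e', .left g e he, lt_of_lt_of_le he' r1, h⟩

end Pool.Agent.H561R2.RK
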